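import Pool.Agent.W182.PW.Tup

set_option autoImplicit false

/-!
# Almost prime tuples in all windows around a positive proportion of the integers

Let `H` be a finite set of positive integers such that for every prime `p` some integer `m` has
none of `m`, `m + h` (`h ∈ H`) divisible by `p`, for example `{2, 6}` or `{2, 6, 8}`, and let
`k = #H + 1`. There are `r` and `c₁, c₂, K > 0` such that a positive proportion of all integers `n` is
regular: every interval `(a, b]` with `a ≤ n ≤ b` and `K log ^ k n ≤ b - a ≤ n` contains between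
`c₁ (b - a) / log ^ k n` and `c₂ (b - a) / log ^ k n` primes `p` for which the numbers `p + h`,
`h ∈ H`, have at most `r` prime factors each, all larger than `n ^ (1 / r)`.
-/

namespace Pool.Agent.Results.MP_3efbeb_nt.RegularWindows

open Finset Filter

/-- `p` is prime and each `p + h`, `h ∈ H`, has at most `r` prime factors (with multiplicity), all of
them larger than `z`. -/
def AlmostTuple (H : Finset ℕ) (r : ℕ) (z : ℝ) (p : ℕ) : Prop :=
  p.Prime ∧ ∀ h ∈ H, (p + h).primeFactorsList.length ≤ r ∧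
    ∀ q : ℕ, q.Prime → q ∣ p + h → z < (q : ℝ)

open Classical in
/-- `n` is regular. -/
def Regular (H : Finset ℕ) (r : ℕ) (c₁ c₂ K : ℝ) (n : ℕ) : Prop :=
  ∀ a b : ℕ, a ≤ n → n ≤ b → K * Real.log n ^ (H.card + 1) ≤ (b : ℝ) - a → (b : ℝ) - a ≤ n →
    c₁ * ((b : ℝ) - a) / Real.log n ^ (H.card + 1) ≤
      (((Finset.Ioc a b).filter (fun p => AlmostTuple H r ((n : ℝ) ^ (1 / (r : ℝ))) p)).card : ℝ) ∧
    (((Finset.Ioc a b).filter (fun p => AlmostTuple H r ((n : ℝ) ^ (1 / (r : ℝ))) p)).card : ℝ) ≤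
      c₂ * ((b : ℝ) - a) / Real.log n ^ (H.card + 1)

open Classical in
/-- **Almost prime tuples: regular windows.** For every admissible set of shifts, for some `r` and
positive `c₁, c₂, K, κ` and all large `x` at least `κ x` of the integers `n` in `[1, x]` are
regular. -/
theorem result (H : Finset ℕ) (h0 : 0 ∉ H)
    (hadm : ∀ p : ℕ, p.Prime → ∃ m : ℕ, ¬ p ∣ m ∧ ∀ h ∈ H, ¬ p ∣ m + h) :
    ∃ (r : ℕ) (c₁ c₂ K κ : ℝ), 0 < c₁ ∧ 0 < c₂ ∧ 0 < K ∧ 0 < κ ∧
    ∀ᶠ x : ℕ in atTop,
      κ * x ≤ (((Finset.Icc 1 x).filter (fun n => Regular H r c₁ c₂ K n)).card : ℝ) :=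
  Pool.Agent.W182.PW.main_tuple H h0 hadm


end Pool.Agent.Results.MP_3efbeb_nt.RegularWindows
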